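import Pool.Agent.N620.WU.Kil

set_option autoImplicit false

/-! The construction of a real which defeats all decoders. -/

namespace Pool.Agent.N620.WU

open Pool.Agent.Helper227 Pool.Agent.N620.WP
open Encodable MeasureTheory
open Pool.Agent.Y588.PD (Fam RLe exists_fam)

variable {E : ℕ → List Bool → ℕ → Bool → Prop} {N : (ℕ → Bool) → (ℕ → Bool) → Prop}

/-- Conditions. -/
structure Cd where
  Q : Set (ℕ → Bool)
  n : ℕ
  H : ℕ → (ℕ → Bool) → ℕ → Bool
  F : ℕ → ℕ → Rq

/-- The invariant. -/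
structure Cd.Inv (P : Cd) : Prop where
  cl : IsClosed P.Q
  nc : ¬ P.Q.Countable
  ct : ∀ i, Continuous (P.H i)
  dz : ∀ i k, ∀ c ∈ P.Q, (P.F i k).Dz P.n (Xx P.H c)

/-- Extension of conditions. -/
def Cd.Le (P' P : Cd) : Prop :=
  P'.Q ⊆ P.Q ∧ P.n ≤ P'.n ∧ ∀ c ∈ P'.Q, Ag P.n (Xx P.H c) (Xx P'.H c)

theorem Cd.Le.refl (P : Cd) : P.Le P := ⟨subset_rfl, le_rfl, fun _ _ => Ag.refl _ _⟩

theorem Cd.Le.trans {P P' P'' : Cd} (h : P''.Le P') (h' : P'.Le P) : P''.Le P :=
  ⟨h.1.trans h'.1, h'.2.1.trans h.2.1, fun c hc => (h'.2.2 c (h.1 hc)).trans h'.2.1 (h.2.2 c hc)⟩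

/-- One step of the construction. -/
structure Stp' (E : ℕ → List Bool → ℕ → Bool → Prop) (N : (ℕ → Bool) → (ℕ → Bool) → Prop)
    (s : ℕ) (P P' : Cd) : Prop where
  inv : P'.Inv
  le : P'.Le P
  lt : P.n < P'.n
  same : ∀ i, i ≠ s → P'.F i = P.F i
  meet : ∀ c ∈ P'.Q, ∀ y, Ag P'.n (Xx P'.H c) y → (P'.F s.unpair.1 s.unpair.2).Mt y
  kill : KP E N s.unpair.1 s.unpair.2 P'.Q P'.n P'.H (P'.F s)

theorem exists_step (hE : Fam E) (hN : ¬ {x | ∃ v, N x v}.Countable) (s : ℕ) {P : Cd}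
    (hP : P.Inv) : ∃ P', Stp' E N s P P' := by
  obtain ⟨Q1, n1, H1, F1, h1, h2, h3, h4, h5, h6, h7, h8⟩ :=
    exists_kill hE hN s.unpair.1 s.unpair.2 hP.cl hP.nc P.n hP.ct
  let F' : ℕ → ℕ → Rq := Function.update P.F s F1
  have hF : ∀ i k, ∀ c ∈ Q1, (F' i k).Dz n1 (Xx H1 c) := by
    intro i k c hc
    by_cases hi : i = s
    · subst hi
      simp only [F', Function.update_self]
      exact h7 k c hc
    · simp only [F', Function.update_of_ne hi]
      exact (hP.dz i k c (h3 hc)).mono h4.le (h6 c hc)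
  obtain ⟨i, Q2, H2, h1', h2', h3', h4', h5', h6'⟩ := exists_unif h1 h2 h5
    (F' s.unpair.1 s.unpair.2).meas fun c hc => hF s.unpair.1 s.unpair.2 c hc n1 le_rfl _
      (Ag.refl _ _)
  refine ⟨⟨Q2, max n1 ((F' s.unpair.1 s.unpair.2).μ i), H2, F'⟩, ⟨h1', h2', h4', ?_⟩,
    ⟨h3'.trans h3, ?_, ?_⟩, ?_, ?_, ?_, ?_⟩
  · intro i' k c hc
    exact (hF i' k c (h3' hc)).mono (le_max_left _ _) (h5' c hc)
  · exact h4.le.trans (le_max_left _ _)
  · exact fun c hc => (h6 c (h3' hc)).trans h4.le (h5' c hc)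
  · exact lt_of_lt_of_le h4 (le_max_left _ _)
  · intro i' hi'
    simp only [F', Function.update_of_ne hi']
  · intro c hc y hy
    exact ⟨i, (F' s.unpair.1 s.unpair.2).det i _ (h6' c hc) y (ag_mono hy (le_max_right _ _))⟩
  · simp only [F', Function.update_self]
    exact h8.mono h3' (le_max_left _ _) h5'

/-- Uncountable closed sets can be split. -/
theorem exists_coord {Q : Set (ℕ → Bool)} (hQ : ¬ Q.Countable) :
    ∃ i, ∀ b : Bool, ¬ (Q ∩ {c | c i = b}).Countable := by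
  by_contra hcon
  push Not at hcon
  choose b hb using hcon
  refine hQ (((Set.countable_iUnion hb).union (Set.countable_singleton fun i => !b i)).mono
    fun c hc => ?_)
  by_cases h : ∃ i, c i = b i
  · obtain ⟨i, hi⟩ := h
    exact Or.inl (Set.mem_iUnion.2 ⟨i, hc, hi⟩)
  · push Not at h
    refine Or.inr (funext fun i => ?_)
    have := h i
    revert this
    cases c i <;> cases b i <;> simp

/-- A step, followed by a splitting. -/
theorem exists_split (hE : Fam E) (hN : ¬ {x | ∃ v, N x v}.Countable) (s : ℕ)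
    (P : {P : Cd // P.Inv}) : ∃ (P' : Bool → {P : Cd // P.Inv}) (i : ℕ),
      (∀ b, Stp' E N s P.1 (P' b).1) ∧ ∀ b, ∀ c ∈ (P' b).1.Q, c i = b := by
  obtain ⟨P1, hP1⟩ := exists_step hE hN s P.2
  obtain ⟨i, hi⟩ := exists_coord hP1.inv.nc
  have hcl : ∀ b : Bool, IsClosed (P1.Q ∩ {c | c i = b}) := fun b =>
    hP1.inv.cl.inter ((isClosed_discrete ({b} : Set Bool)).preimage
      (continuous_apply (A := fun _ : ℕ => Bool) i))
  have hinv : ∀ b : Bool, (⟨P1.Q ∩ {c | c i = b}, P1.n, P1.H, P1.F⟩ : Cd).Inv := fun b =>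
    ⟨hcl b, hi b, hP1.inv.ct, fun i k c hc => hP1.inv.dz i k c hc.1⟩
  refine ⟨fun b => ⟨_, hinv b⟩, i, fun b => ?_, fun b c hc => hc.2⟩
  refine ⟨hinv b, ⟨Set.inter_subset_left.trans hP1.le.1, hP1.le.2.1,
    fun c hc => hP1.le.2.2 c hc.1⟩, hP1.lt, hP1.same, fun c hc => hP1.meet c hc.1, ?_⟩
  exact hP1.kill.mono Set.inter_subset_left le_rfl fun c _ => Ag.refl _ _

/-- The tree of conditions. -/
def tre (nx : ℕ → {P : Cd // P.Inv} → Bool → {P : Cd // P.Inv}) (P : {P : Cd // P.Inv}) :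
    List Bool → {P : Cd // P.Inv}
  | [] => P
  | b :: σ => nx σ.length (tre nx P σ) b

/-- The nodes along the branch of a point. -/
def nod (sc : List Bool → ℕ) (c : ℕ → Bool) : ℕ → List Bool
  | 0 => []
  | k + 1 => c (sc (nod sc c k)) :: nod sc c k

theorem lc_nod (sc : List Bool → ℕ) (k : ℕ) : LC (fun c => nod sc c k) Set.univ := by
  induction k with
  | zero => exact LC.const _
  | succ k ih =>
    have h1 : LC (fun c : ℕ → Bool => c (sc (nod sc c k))) Set.univ :=
      LC.app (f := fun c l => c (sc l)) (fun l => LC.bit _) ih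
    exact h1.map₂ ih fun b l => b :: l

/-- In every cone there is a real which defeats all decoders. -/
theorem exists_high (hE : Fam E) (hE' : ∀ x y, TLe x y ↔ RLe E x y)
    (hN : ¬ {x | ∃ v, N x v}.Countable) (hT : ∀ w, Thin (AA N w)) (z : ℕ → Bool) :
    ∃ X, TLe z X ∧ ¬ ∃ x', TLe x' X ∧ TLe X x' ∧
      ∀ e, (Rl N x' (Psi (VE E) e x') ↔ G (VE E) e x' 0 = true) := by
  choose nx sc0 hnx hsc using exists_split (E := E) (N := N) hE hN
  have hinit : (⟨Set.univ, 1, fun _ _ => z, fun _ _ => Rq.triv⟩ : Cd).Inv :=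
    ⟨isClosed_univ, not_countable_univ, fun _ => continuous_const,
      fun _ _ _ _ => Rq.dz_triv _ _⟩
  set 𝒯 := tre nx ⟨_, hinit⟩ with h𝒯
  let sc : List Bool → ℕ := fun σ => sc0 σ.length (𝒯 σ)
  have hstep : ∀ σ b, Stp' E N σ.length (𝒯 σ).1 (𝒯 (b :: σ)).1 := fun σ b => hnx _ _ b
  have hcoord : ∀ σ b, ∀ c ∈ (𝒯 (b :: σ)).1.Q, c (sc σ) = b := fun σ b => hsc _ _ b
  have hn : ∀ σ, σ.length < (𝒯 σ).1.n := by
    intro σ
    induction σ with
    | nil => exact Nat.one_pos
    | cons b σ ih =>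
      have := (hstep σ b).lt
      simp only [List.length_cons]
      omega
  -- the final sequences
  let XX : (ℕ → Bool) → Sq := fun c i => (𝒯 (nod sc c (i + 1))).1.H i c
  have hlcX : ∀ m, LC (fun c => J (XX c) m) Set.univ := by
    intro m
    refine LC.app (f := fun c l => (𝒯 l).1.H m.unpair.1 c m.unpair.2) (fun l => ?_)
      (lc_nod sc (m.unpair.1 + 1))
    exact LC.of_continuousOn (continuousOn_univ.2 ((𝒯 l).2.ct _)) _
  have hlcb : ∀ m, LC (fun c : ℕ → Bool => c (sc (nod sc c m))) Set.univ := fun m =>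
    LC.app (f := fun c l => c (sc l)) (fun l => LC.bit _) (lc_nod sc m)
  obtain ⟨w1, hw1⟩ := exists_code hlcX
  obtain ⟨w2, hw2⟩ := exists_code hlcb
  have hinv : ∀ i : List Bool × ℕ, ∃ r : ℕ → Bool,
      Set.InjOn ((𝒯 i.1).1.H i.2) (𝒯 i.1).1.Q →
      ∀ c ∈ (𝒯 i.1).1.Q, TLe c (join ((𝒯 i.1).1.H i.2 c) r) := by
    intro i
    by_cases hi : Set.InjOn ((𝒯 i.1).1.H i.2) (𝒯 i.1).1.Q
    · obtain ⟨r, hr⟩ := exists_inverse_code (𝒯 i.1).2.cl
        (fun m => LC.of_continuousOn ((𝒯 i.1).2.ct i.2).continuousOn m) hi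
      exact ⟨r, fun _ => hr⟩
    · exact ⟨fun _ => false, fun h => absurd h hi⟩
  choose r hr using hinv
  obtain ⟨w3, hw3⟩ := join_cone fun m => match Encodable.decode (α := List Bool × ℕ) m with
    | some i => r i
    | none => fun _ => false
  have hw3' : ∀ i, TLe (r i) w3 := by
    intro i
    have := hw3 (encode i)
    simpa using this
  obtain ⟨z', hz'⟩ := hT (join w1 (join w2 w3)) (join w1 (join w2 w3))
  have hw1' : TLe w1 (join w1 (join w2 w3)) := tLe_join_left _ _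
  have hw2' : TLe w2 (join w1 (join w2 w3)) := (tLe_join_left w2 w3).trans (tLe_join_right _ _)
  have hw3'' : TLe w3 (join w1 (join w2 w3)) := (tLe_join_right w2 w3).trans (tLe_join_right _ _)
  generalize join w1 (join w2 w3) = w at hz' hw1' hw2' hw3''
  -- the branch
  have hmono : ∀ k m, k ≤ m → (𝒯 (rp z' m)).1.Le (𝒯 (rp z' k)).1 := by
    intro k m h
    induction m, h using Nat.le_induction with
    | base => exact Cd.Le.refl _
    | succ m _ ih => exact (hstep (rp z' m) (z' m)).le.trans ih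
  obtain ⟨c, hc⟩ := IsCompact.nonempty_iInter_of_sequence_nonempty_isCompact_isClosed
    (fun k => (𝒯 (rp z' k)).1.Q) (fun k => (hmono k (k + 1) (Nat.le_succ k)).1)
    (fun k => by
      rw [Set.nonempty_iff_ne_empty]
      intro h
      exact (𝒯 (rp z' k)).2.nc (h ▸ Set.countable_empty)) (𝒯 (rp z' 0)).2.cl.isCompact
    fun k => (𝒯 (rp z' k)).2.cl
  rw [Set.mem_iInter] at hc
  have hnod : ∀ k, nod sc c k = rp z' k := by
    intro k
    induction k with
    | zero => rfl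
    | succ k ih => rw [nod, rp, ih, hcoord (rp z' k) (z' k) c (hc (k + 1))]
  have hbr : (fun m => c (sc (nod sc c m))) = z' := by
    funext m
    rw [hnod]
    exact hcoord (rp z' m) (z' m) c (hc (m + 1))
  have hXc : TLe (J (XX c)) (join c w) :=
    (hw1 c trivial).trans (join_tLe (tLe_join_left _ _) (hw1'.trans (tLe_join_right _ _)))
  have hzc : TLe z' (join c w) := by
    have h1 := hw2 c trivial
    rw [hbr] at h1
    exact h1.trans (join_tLe (tLe_join_left _ _) (hw2'.trans (tLe_join_right _ _)))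
  have hag : ∀ k, Ag (𝒯 (rp z' k)).1.n (Xx (𝒯 (rp z' k)).1.H c) (XX c) := by
    intro k i hi
    change (𝒯 (nod sc c (i + 1))).1.H i c = _
    rw [hnod]
    have h1 := (hmono (i + 1) (max (i + 1) k) (le_max_left _ _)).2.2 c (hc _) i (by
      have := hn (rp z' (i + 1))
      rw [length_rp] at this
      omega)
    have h2 := (hmono k (max (i + 1) k) (le_max_right _ _)).2.2 c (hc _) i hi
    simp only [Xx] at h1 h2 ⊢
    rw [← h1, ← h2]
  refine ⟨J (XX c), ?_, ?_⟩
  · have h1 := tLe_J (XX c) 0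
    have h2 := hag 0 0 Nat.one_pos
    rw [h2] at h1
    exact h1
  · rintro ⟨x', h3, h4, h5⟩
    obtain ⟨j, hj⟩ := (hE' _ _).1 h3
    obtain ⟨l, hl⟩ := (hE' _ _).1 h4
    -- all requirements are met
    have hF : ∀ i k, i < k → (𝒯 (rp z' k)).1.F i = (𝒯 (rp z' (i + 1))).1.F i := by
      intro i k h
      induction k, h using Nat.le_induction with
      | base => rfl
      | succ k h ih =>
        rw [← ih]
        refine (hstep (rp z' k) (z' k)).same i ?_
        rw [length_rp]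
        omega
    have hmeet : ∀ i k, ((𝒯 (rp z' (i + 1))).1.F i k).Mt (XX c) := by
      intro i k
      have h1 := (hstep (rp z' (Nat.pair i k)) (z' (Nat.pair i k))).meet c
        (hc (Nat.pair i k + 1)) (XX c) (hag (Nat.pair i k + 1))
      rw [length_rp, Nat.unpair_pair] at h1
      have h2 := hF i (Nat.pair i k + 1) (Nat.lt_succ_of_le (Nat.left_le_pair i k))
      change ((𝒯 (rp z' (Nat.pair i k + 1))).1.F i k).Mt (XX c) at h1
      rwa [h2] at h1
    have hkill := (hstep (rp z' (Nat.pair j l)) (z' (Nat.pair j l))).kill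
    rw [length_rp, Nat.unpair_pair] at hkill
    change KP E N j l (𝒯 (rp z' (Nat.pair j l + 1))).1.Q (𝒯 (rp z' (Nat.pair j l + 1))).1.n
      (𝒯 (rp z' (Nat.pair j l + 1))).1.H
      ((𝒯 (rp z' (Nat.pair j l + 1))).1.F (Nat.pair j l)) at hkill
    have hcm : Cmp E j (J (XX c)) x' := hj
    have hcm' : Cmp E l x' (J (XX c)) := hl
    rcases hkill with hk | ⟨m, hm, b, hk, hk'⟩
    · exact hk c (hc _) (XX c) (hag _) (hmeet _) hcm.dm
    · obtain ⟨h6, h7⟩ := hk c (hc _) (XX c) (hag _) (hmeet _)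
      rw [hcm.psi hE] at h7
      have h8 := h5 (Nat.pair l m)
      rw [psi_col hE hcm' m, h7] at h8
      have h9 : XX c m = (𝒯 (rp z' (Nat.pair j l + 1))).1.H m c := hag _ m hm
      rcases hk' with ⟨rfl, i, hi, h10⟩ | ⟨rfl, h10⟩
      · have h11 : XX c i = (𝒯 (rp z' (Nat.pair j l + 1))).1.H i c := hag _ i hi
        have h12 := h10 c (hc _)
        rw [← h9, ← h11] at h12
        have h13 : Rl N x' (XX c m) := ⟨XX c i, (tLe_J (XX c) i).trans h4, h12⟩
        exact absurd (h8.1 h13) (by simp)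
      · have h13 : Rl N x' (XX c m) := h8.2 rfl
        have h14 := hr (rp z' (Nat.pair j l + 1), m) h10 c (hc _)
        have h15 : TLe c (join (XX c m) w) := by
          rw [h9]
          exact h14.trans (join_tLe (tLe_join_left _ _)
            (((hw3' _).trans hw3'').trans (tLe_join_right _ _)))
        have h16 : TLe (join c w) (join (XX c m) w) := join_tLe h15 (tLe_join_right _ _)
        exact not_rl hz' ((h3.trans hXc).trans h16) (hzc.trans h16) h13

end Pool.Agent.N620.WU
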