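import Pool.Agent.N620.WU.Rqm

set_option autoImplicit false

/-! The killing of one decoder. -/

namespace Pool.Agent.N620.WU

open Pool.Agent.Helper227 Pool.Agent.N620.WP
open Encodable MeasureTheory
open Pool.Agent.Y588.PD (Fam RLe exists_fam)

variable {E : ℕ → List Bool → ℕ → Bool → Prop} {N : (ℕ → Bool) → (ℕ → Bool) → Prop}

/-- The claim of the decoder `j` on the functional `e` is `b`. -/
def Clm (E : ℕ → List Bool → ℕ → Bool → Prop) (j e : ℕ) (b : Bool) (y : Sq) : Prop :=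
  Dm (UE E) j (J y) ∧ G (VE E) e (Psi (UE E) j (J y)) 0 = b

/-- The decoder `(j, l)` is killed. -/
def KP (E : ℕ → List Bool → ℕ → Bool → Prop) (N : (ℕ → Bool) → (ℕ → Bool) → Prop) (j l : ℕ)
    (Q : Set (ℕ → Bool)) (n : ℕ) (H : ℕ → (ℕ → Bool) → ℕ → Bool) (F : ℕ → Rq) : Prop :=
  (∀ c ∈ Q, ∀ y, Ag n (Xx H c) y → (∀ k, (F k).Mt y) → ¬ Dm (UE E) j (J y)) ∨
  ∃ m < n, ∃ b, (∀ c ∈ Q, ∀ y, Ag n (Xx H c) y → (∀ k, (F k).Mt y) →
      Clm E j (Nat.pair l m) b y) ∧
    ((b = false ∧ ∃ i < n, ∀ c ∈ Q, N (H m c) (H i c)) ∨ (b = true ∧ Set.InjOn (H m) Q))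

theorem KP.mono {j l : ℕ} {Q Q' : Set (ℕ → Bool)} {n n' : ℕ}
    {H H' : ℕ → (ℕ → Bool) → ℕ → Bool} {F : ℕ → Rq} (h : KP E N j l Q n H F) (hQ : Q' ⊆ Q)
    (hn : n ≤ n') (hH : ∀ c ∈ Q', Ag n (Xx H c) (Xx H' c)) : KP E N j l Q' n' H' F := by
  rcases h with h | ⟨m, hm, b, h1, h2⟩
  · exact Or.inl fun c hc y hy => h c (hQ hc) y ((hH c hc).trans hn hy)
  · refine Or.inr ⟨m, by omega, b, fun c hc y hy => h1 c (hQ hc) y ((hH c hc).trans hn hy), ?_⟩
    rcases h2 with ⟨rfl, i, hi, h3⟩ | ⟨rfl, h3⟩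
    · refine Or.inl ⟨rfl, i, by omega, fun c hc => ?_⟩
      have h4 := hH c hc m hm
      have h5 := hH c hc i hi
      simp only [Xx] at h4 h5
      rw [h4, h5]
      exact h3 c (hQ hc)
    · refine Or.inr ⟨rfl, fun c hc c' hc' hcc => h3 (hQ hc) (hQ hc') ?_⟩
      have h4 := hH c hc m hm
      have h5 := hH c' hc' m hm
      simp only [Xx] at h4 h5
      rw [← h4, ← h5]
      exact hcc

/-- One decoder can be killed. -/
theorem exists_kill (hE : Fam E) (hN : ¬ {x | ∃ v, N x v}.Countable) (j l : ℕ)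
    {Q : Set (ℕ → Bool)} (hQ : IsClosed Q) (hQ' : ¬ Q.Countable) (n : ℕ)
    {H : ℕ → (ℕ → Bool) → ℕ → Bool} (hH : ∀ i, Continuous (H i)) :
    ∃ (Q' : Set (ℕ → Bool)) (n' : ℕ) (H' : ℕ → (ℕ → Bool) → ℕ → Bool) (F : ℕ → Rq),
      IsClosed Q' ∧ ¬ Q'.Countable ∧ Q' ⊆ Q ∧ n < n' ∧ (∀ i, Continuous (H' i)) ∧
      (∀ c ∈ Q', Ag n (Xx H c) (Xx H' c)) ∧ (∀ k, ∀ c ∈ Q', (F k).Dz n' (Xx H' c)) ∧
      KP E N j l Q' n' H' F := by
  classical
  choose O hO hO' using fun b => exists_O hE j (Nat.pair l n) b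
  have hW : ∀ b a m, MeasurableSet (WW (O b a) m) := fun b a m => measurableSet_WW (hO b a) m
  have hcn : Continuous fun y : Sq => y n := continuous_apply n
  have hcn' : Continuous fun p : (ℕ → Bool) × Sq => p.2 n := hcn.comp continuous_snd
  by_cases ha : ∃ v, (∃ u, N v u) ∧ ∃ a m, n < m ∧
      ¬ Sml (Prod.fst : (ℕ → Bool) × Sq → ℕ → Bool) Prod.fst
        (Ex Q n H (WW (O false a) m ∩ {y | y n = v}))
  · -- a constant column with the claim `false`
    obtain ⟨v, ⟨u, hu⟩, a, m, hm, hs⟩ := ha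
    have hv : MeasurableSet {y : Sq | y n = v} := (isClosed_eq hcn continuous_const).measurableSet
    obtain ⟨Q', H', h1, h2, h3, h4, h5, h6, -⟩ :=
      exists_sel hQ hH ((hW false a m).inter hv) continuous_fst hs
    have hag : ∀ c, Ag m (Xx H' c) (Xx (Function.update H' m fun _ => u) c) := by
      intro c i hi
      simp only [Xx]
      rw [Function.update_of_ne (by omega)]
    refine ⟨Q', m + 1, Function.update H' m fun _ => u, fun k => Rq.op (O false a k) (hO false a k),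
      h1, h2, h3, by omega, fun i => ?_, fun c hc => (h5 c hc).trans hm.le (hag c), ?_, Or.inr ?_⟩
    · by_cases hi : i = m
      · subst hi
        rw [Function.update_self]
        exact continuous_const
      · rw [Function.update_of_ne hi]
        exact h4 i
    · intro k c hc
      exact Rq.dz_op _ (WW.mono (h6 c hc).1 (Nat.le_succ m) (hag c) k)
    · refine ⟨n, by omega, false, fun c hc y hy hk => ?_, Or.inl ⟨rfl, m, by omega, fun c hc => ?_⟩⟩
      · exact (hO' false y).2 ⟨a, fun k => Rq.mt_op (hk k)⟩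
      · have h7 : H' n c = v := (h6 c hc).2
        rw [Function.update_self, Function.update_of_ne (by omega), h7]
        exact hu
  by_cases hb : ∃ a m, n < m ∧
      ¬ Sml (Prod.fst : (ℕ → Bool) × Sq → ℕ → Bool) (fun p => p.2 n) (Ex Q n H (WW (O true a) m))
  · -- an injective column with the claim `true`
    obtain ⟨a, m, hm, hs⟩ := hb
    obtain ⟨Q', H', h1, h2, h3, h4, h5, h6, h7⟩ := exists_sel hQ hH (hW true a m) hcn' hs
    refine ⟨Q', m, H', fun k => Rq.op (O true a k) (hO true a k), h1, h2, h3, hm, h4, h5,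
      fun k c hc => Rq.dz_op _ (h6 c hc k), Or.inr ⟨n, hm, true, fun c hc y hy hk => ?_,
      Or.inr ⟨rfl, h7⟩⟩⟩
    exact (hO' true y).2 ⟨a, fun k => Rq.mt_op (hk k)⟩
  -- no claims
  push Not at ha hb
  obtain ⟨A1, B1, hA1, hB1, h1⟩ := Sml.iUnion (ι := ℕ × {m : ℕ // n < m})
    (E := fun i => Ex Q n H (WW (O true i.1) i.2.1)) fun i => hb i.1 i.2.1 i.2.2
  obtain ⟨v, ⟨u, hu⟩, hv⟩ : ∃ v, (∃ u, N v u) ∧ v ∉ B1 := by
    by_contra hcon
    push Not at hcon
    exact hN (hB1.mono fun x hx => hcon x hx)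
  obtain ⟨A2, B2, hA2, hB2, h2⟩ := Sml.iUnion (ι := ℕ × {m : ℕ // n < m})
    (E := fun i => Ex Q n H (WW (O false i.1) i.2.1 ∩ {y | y n = v}))
    fun i => ha v ⟨u, hu⟩ i.1 i.2.1 i.2.2
  have hC : (A1 ∪ (A2 ∪ B2)).Countable := hA1.union (hA2.union hB2)
  have hbad : ∀ c ∈ Q, c ∉ A1 ∪ (A2 ∪ B2) → ∀ b a m, n < m → ∀ y ∈ WW (O b a) m,
      Ag n (Xx H c) y → y n ≠ v := by
    rintro c hc hcC b a m hm y hy hcy rfl
    cases b
    · rcases h2 (c, y) (Set.mem_iUnion.2 ⟨(a, ⟨m, hm⟩), hc, ⟨hy, rfl⟩, hcy⟩) with h3 | h3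
      · exact hcC (Or.inr (Or.inl h3))
      · exact hcC (Or.inr (Or.inr h3))
    · rcases h1 (c, y) (Set.mem_iUnion.2 ⟨(a, ⟨m, hm⟩), hc, hy, hcy⟩) with h3 | h3
      · exact hcC (Or.inl h3)
      · exact hv h3
  obtain ⟨g, hg1, hg2, hg3⟩ := exists_cantor (B := Q \ (A1 ∪ (A2 ∪ B2)))
    (hQ.measurableSet.diff hC.measurableSet) fun h => hQ' (by
      refine (h.union hC).mono fun x hx => ?_
      by_cases hx' : x ∈ A1 ∪ (A2 ∪ B2)
      · exact Or.inr hx'
      · exact Or.inl ⟨hx, hx'⟩)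
  have hag : ∀ c, Ag n (Xx H c) (Xx (Function.update H n fun _ => v) c) := by
    intro c i hi
    simp only [Xx]
    rw [Function.update_of_ne (by omega)]
  have hvn : ∀ c, Xx (Function.update H n fun _ => v) c n = v := by
    intro c
    simp only [Xx, Function.update_self]
  refine ⟨Set.range g, n + 1, Function.update H n fun _ => v,
    fun k => Rq.cl (fun i => O k.bodd k.div2 i) fun i => hO k.bodd k.div2 i,
    (isCompact_range hg1).isClosed, ?_, ?_, by omega, fun i => ?_, fun c _ => hag c, ?_, Or.inl ?_⟩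
  · intro hc
    have h7 := hc.preimage_of_injOn (f := g) hg2.injOn
    refine not_countable_univ (h7.mono fun x _ => ?_)
    exact Set.mem_range_self (f := g) x
  · rintro c ⟨x, rfl⟩
    exact (hg3 x).1
  · by_cases hi : i = n
    · subst hi
      rw [Function.update_self]
      exact continuous_const
    · rw [Function.update_of_ne hi]
      exact hH i
  · rintro k c ⟨x, rfl⟩
    refine Rq.dz_cl _ fun m hm y hy hyW => ?_
    refine hbad (g x) (hg3 x).1 (hg3 x).2 k.bodd k.div2 m (by omega) y hyW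
      ((hag (g x)).trans (Nat.le_succ n) (by
        intro i hi
        exact hy i (by omega))) ?_
    rw [hy n (by omega), hvn]
  · rintro c ⟨x, rfl⟩ y hy hk hd
    obtain ⟨a, haa⟩ := (hO' (G (VE E) (Nat.pair l n) (Psi (UE E) j (J y)) 0) y).1 ⟨hd, rfl⟩
    obtain ⟨i, hi⟩ := Rq.mt_cl (hk (Nat.bit (G (VE E) (Nat.pair l n) (Psi (UE E) j (J y)) 0) a))
    rw [Nat.bodd_bit, Nat.div2_bit] at hi
    exact hi (haa i)

end Pool.Agent.N620.WU
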