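import Pool.Agent.N620.WP.Cor

set_option autoImplicit false

/-! The fusion argument for relations. -/

namespace Pool.Agent.N620.WU

open Pool.Agent.Helper227 Pool.Agent.N620.WP
open Encodable

/-- The real `y` computes a witness for `x`. -/
def Rl (N : (ℕ → Bool) → (ℕ → Bool) → Prop) (y x : ℕ → Bool) : Prop := ∃ v, TLe v y ∧ N x v

/-- All pairs of a point and a witness computable from it and `w`. -/
def AA (N : (ℕ → Bool) → (ℕ → Bool) → Prop) (w : ℕ → Bool) : Set (ℕ → Bool) :=
  {a | N (evn a) (odd' a) ∧ TLe (odd' a) (join (evn a) w)}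

variable {N : (ℕ → Bool) → (ℕ → Bool) → Prop} {V : ℕ → ℕ → Bool → Set (ℕ → Bool)}

theorem join_mem_AA {w x v : ℕ → Bool} (h : N x v) (h' : TLe v (join x w)) :
    join x v ∈ AA N w := by
  change N (evn (join x v)) (odd' (join x v)) ∧ TLe (odd' (join x v)) (join (evn (join x v)) w)
  rw [evn_join', odd_join']
  exact ⟨h, h'⟩

/-- Points `x` which, with `w`, compute high reals have no witness computable from `x` and `w`. -/
theorem not_rl {w z : ℕ → Bool} (hz : ∀ a ∈ AA N w, ¬ TLe z (join a w)) {y x : ℕ → Bool}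
    (hy : TLe y (join x w)) (hzy : TLe z (join x w)) : ¬ Rl N y x := by
  rintro ⟨v, h1, h2⟩
  refine hz _ (join_mem_AA h2 (h1.trans hy)) (hzy.trans (join_tLe ?_ (tLe_join_right _ _)))
  exact (tLe_join_left x v).trans (tLe_join_left _ _)

/-- The coded real `g` takes care of the functional `e` below `t`. -/
def Good (V : ℕ → ℕ → Bool → Set (ℕ → Bool)) (N : (ℕ → Bool) → (ℕ → Bool) → Prop) (e : ℕ)
    (t : List Bool → List Bool) (g : ℕ → Bool) : Prop :=
  ∀ y ∈ body (OpE V e t), TLe g y → (Rl N y (Psi V e y) ↔ g 0 = true)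

theorem exists_good (hV : PF V) (hN : ∀ w, Thin (AA N w)) (e : ℕ) {t : List Bool → List Bool}
    (ht : IsEmb t) : ∃ g, Good V N e t g := by
  classical
  rcases hV.dichotomy ht e with ⟨v, hv⟩ | ⟨hinj, hlc⟩
  · by_cases h : ∃ u, N v u
    · obtain ⟨u, hu⟩ := h
      refine ⟨fun n => Nat.casesOn n true u, fun y hy hg => ?_⟩
      rw [hv y hy]
      refine ⟨fun _ => rfl, fun _ => ⟨u, TLe.trans ?_ hg, hu⟩⟩
      exact tLe_tail (fun n => (Nat.casesOn n true u : Bool))
    · refine ⟨fun _ => false, fun y hy _ => ?_⟩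
      rw [hv y hy]
      refine ⟨?_, fun h1 => absurd h1 (by simp)⟩
      rintro ⟨u, -, hu⟩
      exact absurd ⟨u, hu⟩ h
  · obtain ⟨r, hr⟩ := exists_inverse_code (isClosed_body _) hlc hinj
    obtain ⟨z, hz⟩ := hN r r
    refine ⟨fun n => Nat.casesOn n false z, fun y hy hg => ⟨fun h1 => ?_, fun h1 => ?_⟩⟩
    · exfalso
      refine not_rl hz (hr y hy) (TLe.trans (TLe.trans ?_ hg) (hr y hy)) h1
      exact tLe_tail (fun n => (Nat.casesOn n false z : Bool))
    · exact absurd h1 (by simp)

/-- The sequence of thinner and thinner embeddings. -/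
noncomputable def seq (V : ℕ → ℕ → Bool → Set (ℕ → Bool)) (N : (ℕ → Bool) → (ℕ → Bool) → Prop)
    (z : ℕ → Bool) : ℕ → List Bool → List Bool
  | 0 => Int' z idt
  | n + 1 => Int' (Classical.epsilon (Good V N n (seq V N z n))) (OpE V n (seq V N z n))

theorem isEmb_seq (z : ℕ → Bool) (n : ℕ) : IsEmb (seq V N z n) := by
  induction n with
  | zero => exact isEmb_idt.int z
  | succ n ih => exact (ih.opE n).int _

theorem body_seq_succ (z : ℕ → Bool) (n : ℕ) : body (seq V N z (n + 1)) ⊆ body (seq V N z n) :=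
  (((isEmb_seq z n).opE n).body_int _).trans ((isEmb_seq z n).body_opE n)

theorem exists_branch (z : ℕ → Bool) : ∃ y, ∀ n, y ∈ body (seq V N z n) := by
  obtain ⟨y, hy⟩ := IsCompact.nonempty_iInter_of_sequence_nonempty_isCompact_isClosed
    (fun n => body (seq V N z n)) (body_seq_succ z)
    (fun n => ⟨_, (isEmb_seq z n).pt_mem fun _ => false⟩) (isClosed_body _).isCompact
    fun n => isClosed_body _
  exact ⟨y, fun n => Set.mem_iInter.1 hy n⟩

theorem decode {z y : ℕ → Bool} (hy : ∀ n, y ∈ body (seq V N z n)) (n : ℕ) :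
    T V n y = seq V N z n := by
  induction n with
  | zero =>
    have h1 := isEmb_idt.evn_inv (hy 0)
    rw [inv_idt] at h1
    rw [T, seq, h1]
  | succ n ih =>
    have h1 := ((isEmb_seq (V := V) (N := N) z n).opE (V := V) n).evn_inv (hy (n + 1))
    rw [T, ih, seq, h1]

/-- Every cone contains reals for which the relation `Rl` can be decoded. -/
theorem fusion (hV : PF V) {r : ℕ → Bool} (hr : ∀ n y, TLe (G V n y) (join y r))
    (hN : ∀ w, Thin (AA N w)) (z : ℕ → Bool) :
    ∃ y, TLe z y ∧ ∀ e, (Rl N y (Psi V e y) ↔ G V e y 0 = true) := by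
  obtain ⟨y, hy⟩ := exists_branch (V := V) (N := N) (join z r)
  have h0 : evn y = join z r := by
    have h1 := isEmb_idt.evn_inv (hy 0)
    rwa [inv_idt] at h1
  have h1 : TLe (join z r) y := h0 ▸ tLe_evn y
  refine ⟨y, (tLe_join_left z r).trans h1, fun e => ?_⟩
  have h2 : TLe (G V e y) y := (hr e y).trans (join_tLe (TLe.refl y) ((tLe_join_right z r).trans h1))
  have h3 : G V e y = Classical.epsilon (Good V N e (seq V N (join z r) e)) := by
    rw [G, decode hy]
    exact ((isEmb_seq (V := V) (N := N) (join z r) e).opE (V := V) e).evn_inv (hy (e + 1))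
  have h4 := Classical.epsilon_spec
    (exists_good hV hN e (isEmb_seq (V := V) (N := N) (join z r) e))
  have h5 : y ∈ body (OpE V e (seq V N (join z r) e)) :=
    ((isEmb_seq (V := V) (N := N) (join z r) e).opE (V := V) e).body_int _ (hy (e + 1))
  rw [← h3] at h4
  exact h4 y h5 h2

end Pool.Agent.N620.WU
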