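import Pool.Agent.N620.WU.Hgh
import Pool.Agent.N620.WP.Mea

set_option autoImplicit false

/-! Weak uniformization. -/

namespace Pool.Agent.N620.WU

open Pool.Agent.Helper227 Pool.Agent.N620.WP
open Encodable MeasureTheory
open Pool.Agent.H685R3 (TuringInvariant Determined)
open Pool.Agent.Y588.PD (Fam RLe exists_fam)

variable {E : ℕ → List Bool → ℕ → Bool → Prop} {N : (ℕ → Bool) → (ℕ → Bool) → Prop}

/-- The Turing saturation of the set of all reals for which the relation `Rl` is decoded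
correctly. -/
def SN (E : ℕ → List Bool → ℕ → Bool → Prop) (N : (ℕ → Bool) → (ℕ → Bool) → Prop) :
    Set (ℕ → Bool) :=
  {x | ∃ x', TLe x' x ∧ TLe x x' ∧ ∀ e, (Rl N x' (Psi (VE E) e x') ↔ G (VE E) e x' 0 = true)}

theorem inv_SN : TuringInvariant (SN E N) := by
  rintro x y h1 h2 ⟨x', h3, h4, h5⟩
  exact ⟨x', TLe.trans h3 h1, TLe.trans h2 h4, h5⟩

/-- For some parameter the points with a computable witness are not thin. -/
theorem exists_param (hE : Fam E) (hE' : ∀ x y, TLe x y ↔ RLe E x y)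
    (hN : ¬ {x | ∃ v, N x v}.Countable) (hS : Determined (SN E N)) : ∃ w, ¬ Thin (AA N w) := by
  by_contra hcon
  push Not at hcon
  obtain ⟨r, hr⟩ := exists_base (VE E)
  obtain ⟨z, hz | hz⟩ := cone_of_determined (inv_SN (E := E) (N := N)) hS
  · obtain ⟨X, h1, h2⟩ := exists_high hE hE' hN hcon z
    exact h2 (hz X h1)
  · obtain ⟨y, h1, h2⟩ := fusion (pf_VE hE) hr hcon z
    exact hz y h1 ⟨y, TLe.refl _, TLe.refl _, h2⟩

theorem exists_full (hE : Fam E) (hE' : ∀ x y, TLe x y ↔ RLe E x y)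
    (hN : ¬ {x | ∃ v, N x v}.Countable) (hS : Determined (SN E N))
    (hD : ∀ w u, Determined (DD (AA N w) u)) : ∃ w, Full (AA N w) := by
  obtain ⟨w, hw⟩ := exists_param hE hE' hN hS
  exact ⟨w, (thin_or_full (hD w)).resolve_left hw⟩

/-- Weak uniformization. -/
theorem weak_unif (hE : Fam E) (hE' : ∀ x y, TLe x y ↔ RLe E x y)
    (hN : ¬ {x | ∃ v, N x v}.Countable) (hS : Determined (SN E N))
    (hD : ∀ w u, Determined (DD (AA N w) u)) :
    (∃ w, ∀ z, TLe w z → ∃ x v, N x v ∧ TLe v z ∧ TLe (join x w) z ∧ TLe z (join x w)) ∧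
    ∃ p q : (ℕ → Bool) → ℕ → Bool, Continuous p ∧ Function.Injective p ∧ Continuous q ∧
      ∀ k : (ℕ → Bool) → ℕ → Bool, Continuous k → Function.Injective k →
        ∃ c, N (p (k c)) (q (k c)) := by
  obtain ⟨w, hF⟩ := exists_full hE hE' hN hS hD
  constructor
  · obtain ⟨u, hu⟩ := hF
    refine ⟨join w u, fun z hz => ?_⟩
    obtain ⟨a, ha, h1, h2⟩ := hu z ((tLe_join_right w u).trans hz)
    have h3 : TLe a z := (tLe_join_left a u).trans h1
    have h4 : TLe (evn a) a := tLe_evn a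
    have h5 : TLe (odd' a) a := by
      have h := tLe_join_right (evn a) (odd' a)
      rwa [join_evn_odd] at h
    refine ⟨evn a, odd' a, ha.1, h5.trans h3, join_tLe (h4.trans h3) hz, h2.trans ?_⟩
    refine join_tLe ?_ ((tLe_join_right w u).trans (tLe_join_right _ _))
    have h6 : TLe (odd' a) (join (evn a) (join w u)) := ha.2.trans
      (join_tLe (tLe_join_left _ _) ((tLe_join_left w u).trans (tLe_join_right _ _)))
    have h7 := join_tLe (tLe_join_left (evn a) (join w u)) h6
    rwa [join_evn_odd] at h7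
  · have hP := full_pos hE hE' hF
    obtain ⟨p, q, h1, h2, h3, h4⟩ := Pos.relation (R := fun x v => N x v ∧ TLe v (join x w))
      hP fun x => (countable_below hE hE' (join x w)).mono fun v hv => hv.2
    refine ⟨p, q, h1, h2, h3, fun k hk hk' => ?_⟩
    obtain ⟨c, hc⟩ := h4 k hk hk'
    exact ⟨c, hc.1⟩

end Pool.Agent.N620.WU
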