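import Mathlib

set_option autoImplicit false

/-! Perfect sets on which two continuous maps are injective. -/

namespace Pool.Agent.N620.WU

open Set Filter Topology TopologicalSpace
open scoped ENNReal

/-- `E` is covered by countably many fibres of `f` and of `g`. -/
def Sml {Z : Type*} (f g : Z → ℕ → Bool) (E : Set Z) : Prop :=
  ∃ A B : Set (ℕ → Bool), A.Countable ∧ B.Countable ∧ ∀ z ∈ E, f z ∈ A ∨ g z ∈ B

section

variable {Z : Type*} {f g : Z → ℕ → Bool}

theorem Sml.mono {E E' : Set Z} (h : Sml f g E) (hE : E' ⊆ E) : Sml f g E' := by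
  obtain ⟨A, B, hA, hB, h1⟩ := h
  exact ⟨A, B, hA, hB, fun z hz => h1 z (hE hz)⟩

theorem Sml.iUnion {ι : Type*} [Countable ι] {E : ι → Set Z} (h : ∀ i, Sml f g (E i)) :
    Sml f g (⋃ i, E i) := by
  choose A B hA hB h1 using h
  refine ⟨⋃ i, A i, ⋃ i, B i, countable_iUnion hA, countable_iUnion hB, fun z hz => ?_⟩
  obtain ⟨i, hi⟩ := mem_iUnion.1 hz
  rcases h1 i z hi with h2 | h2
  · exact Or.inl (mem_iUnion.2 ⟨i, h2⟩)
  · exact Or.inr (mem_iUnion.2 ⟨i, h2⟩)

theorem Sml.union {E E' : Set Z} (h : Sml f g E) (h' : Sml f g E') : Sml f g (E ∪ E') := by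
  rw [union_eq_iUnion]
  refine Sml.iUnion fun b => ?_
  cases b
  · exact h'
  · exact h

theorem not_sml_diff {E E' : Set Z} (h : ¬ Sml f g E) (h' : Sml f g E') : ¬ Sml f g (E \ E') :=
  fun h1 => h ((h1.union h').mono fun z hz => by
    by_cases hz' : z ∈ E'
    · exact Or.inr hz'
    · exact Or.inl ⟨hz, hz'⟩)

theorem sml_empty : Sml f g ∅ := ⟨∅, ∅, countable_empty, countable_empty, fun _ h => h.elim⟩

end

section

variable {Z : Type*} [MetricSpace Z] [SecondCountableTopology Z] {f g : Z → ℕ → Bool}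

/-- The points all of whose neighbourhoods are large. -/
def Cnd (f g : Z → ℕ → Bool) (E : Set Z) : Set Z :=
  {x | x ∈ E ∧ ∀ U ∈ countableBasis Z, x ∈ U → ¬ Sml f g (U ∩ E)}

theorem sml_diff_cnd (E : Set Z) : Sml f g (E \ Cnd f g E) := by
  have hc : Countable {U // U ∈ countableBasis Z ∧ Sml f g (U ∩ E)} :=
    ((countable_countableBasis Z).mono fun U hU => hU.1).to_subtype
  refine (Sml.iUnion (E := fun U : {U // U ∈ countableBasis Z ∧ Sml f g (U ∩ E)} => U.1 ∩ E)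
    fun U => U.2.2).mono fun x hx => ?_
  have h1 := hx.2
  simp only [Cnd, mem_ofPred_eq, not_and, not_forall, not_not] at h1
  obtain ⟨U, hU, hxU, hs⟩ := h1 hx.1
  exact mem_iUnion.2 ⟨⟨U, hU, hs⟩, hxU, hx.1⟩

theorem exists_piece {E : Set Z} (hE : IsClosed E) {x : Z} (hx : x ∈ Cnd f g E) {ε : ℝ≥0∞}
    (hε : 0 < ε) {V : Set Z} (hV : V ∈ 𝓝 x) :
    ∃ E0, IsClosed E0 ∧ ¬ Sml f g E0 ∧ E0 ⊆ E ∧ Metric.ediam E0 ≤ ε ∧ E0 ⊆ V := by
  obtain ⟨δ, hδ, hδ'⟩ : ∃ δ : ℝ≥0∞, 0 < δ ∧ 2 * δ ≤ ε := by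
    refine ⟨ε / 2, by simpa using hε.ne', ?_⟩
    rw [mul_comm, ENNReal.div_mul_cancel] <;> norm_num
  obtain ⟨W, hW, hWc, hWV⟩ : ∃ W ∈ 𝓝 x, IsClosed W ∧ W ⊆ V := exists_mem_nhds_isClosed_subset hV
  obtain ⟨W', hW', hWc', hWV'⟩ : ∃ W' ∈ 𝓝 x, IsClosed W' ∧ W' ⊆ Metric.eball x δ :=
    exists_mem_nhds_isClosed_subset (Metric.isOpen_eball.mem_nhds (Metric.mem_eball_self hδ))
  refine ⟨E ∩ (W ∩ W'), hE.inter (hWc.inter hWc'), fun hs => ?_, inter_subset_left, ?_, ?_⟩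
  · obtain ⟨U, hU, hxU, hUW⟩ := (isBasis_countableBasis Z).mem_nhds_iff.1 (inter_mem hW hW')
    refine hx.2 U hU hxU (hs.mono fun z hz => ⟨hz.2, hUW hz.1⟩)
  · exact ((Metric.ediam_mono fun z hz => hWV' hz.2.2).trans Metric.ediam_eball_le).trans hδ'
  · exact fun z hz => hWV hz.2.1

theorem split (hf : Continuous f) (hg : Continuous g) {E : Set Z} (hE : IsClosed E)
    (hb : ¬ Sml f g E) {ε : ℝ≥0∞} (hε : 0 < ε) : ∃ E0 E1 : Set Z,
    (IsClosed E0 ∧ ¬ Sml f g E0 ∧ E0 ⊆ E ∧ Metric.ediam E0 ≤ ε) ∧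
    (IsClosed E1 ∧ ¬ Sml f g E1 ∧ E1 ⊆ E ∧ Metric.ediam E1 ≤ ε) ∧
    (∀ z ∈ E0, ∀ z' ∈ E1, f z ≠ f z') ∧ ∀ z ∈ E0, ∀ z' ∈ E1, g z ≠ g z' := by
  have h1 : ¬ Sml f g (Cnd f g E) := fun h => hb ((h.union (sml_diff_cnd E)).mono fun z hz => by
    by_cases hz' : z ∈ Cnd f g E
    · exact Or.inl hz'
    · exact Or.inr ⟨hz, hz'⟩)
  obtain ⟨x0, hx0⟩ : (Cnd f g E).Nonempty := by
    rw [nonempty_iff_ne_empty]
    intro h
    rw [h] at h1
    exact h1 sml_empty
  obtain ⟨x1, hx1, hf1, hg1⟩ : ∃ x1 ∈ Cnd f g E, f x0 ≠ f x1 ∧ g x0 ≠ g x1 := by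
    by_contra hc
    push Not at hc
    refine h1 ⟨{f x0}, {g x0}, countable_singleton _, countable_singleton _, fun z hz => ?_⟩
    by_cases h2 : f x0 = f z
    · exact Or.inl h2.symm
    · exact Or.inr (hc z hz h2).symm
  obtain ⟨u0, u1, hu0, hu1, hxu0, hxu1, hdu⟩ := t2_separation hf1
  obtain ⟨v0, v1, hv0, hv1, hxv0, hxv1, hdv⟩ := t2_separation hg1
  obtain ⟨E0, h2, h3, h4, h5, h6⟩ := exists_piece hE hx0 hε (V := f ⁻¹' u0 ∩ g ⁻¹' v0)
    (inter_mem ((hu0.preimage hf).mem_nhds hxu0) ((hv0.preimage hg).mem_nhds hxv0))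
  obtain ⟨E1, h2', h3', h4', h5', h6'⟩ := exists_piece hE hx1 hε (V := f ⁻¹' u1 ∩ g ⁻¹' v1)
    (inter_mem ((hu1.preimage hf).mem_nhds hxu1) ((hv1.preimage hg).mem_nhds hxv1))
  refine ⟨E0, E1, ⟨h2, h3, h4, h5⟩, ⟨h2', h3', h4', h5'⟩, fun z hz z' hz' h => ?_,
    fun z hz z' hz' h => ?_⟩
  · refine disjoint_left.1 hdu (h6 hz).1 ?_
    rw [h]
    exact (h6' hz').1
  · refine disjoint_left.1 hdv (h6 hz).2 ?_
    rw [h]
    exact (h6' hz').2

open CantorScheme PiNat

/-- A closed set which is not covered by countably many fibres of `f` and of `g` contains a Cantor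
set on which both maps are injective. -/
theorem exists_cantor_two [CompleteSpace Z] (hf : Continuous f) (hg : Continuous g) {C : Set Z}
    (hC : IsClosed C) (hb : ¬ Sml f g C) : ∃ κ : (ℕ → Bool) → Z, (∀ x, κ x ∈ C) ∧ Continuous κ ∧
    (Function.Injective fun x => f (κ x)) ∧ Function.Injective fun x => g (κ x) := by
  obtain ⟨u, -, upos', hu⟩ := exists_seq_strictAnti_tendsto' (zero_lt_one' ℝ≥0∞)
  have upos := fun n => (upos' n).1
  let P := Subtype fun E : Set Z => IsClosed E ∧ ¬ Sml f g E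
  choose C0 C1 h0 h1 hfd hgd using
    fun {C : Set Z} (hC : IsClosed C) (hb : ¬ Sml f g C) {ε : ℝ≥0∞} (hε : 0 < ε) =>
    split hf hg hC hb hε
  let DP : List Bool → P := fun l => by
    induction l with
    | nil => exact ⟨C, ⟨hC, hb⟩⟩
    | cons a l ih =>
      cases a
      · use C0 ih.property.1 ih.property.2 (upos (l.length + 1))
        exact ⟨(h0 _ _ _).1, (h0 _ _ _).2.1⟩
      use C1 ih.property.1 ih.property.2 (upos (l.length + 1))
      exact ⟨(h1 _ _ _).1, (h1 _ _ _).2.1⟩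
  let D : List Bool → Set Z := fun l => (DP l).val
  have hne : ∀ l, (D l).Nonempty := fun l => by
    rw [nonempty_iff_ne_empty]
    intro h
    have h2 := (DP l).property.2
    have h3 : (DP l).val = ∅ := h
    rw [h3] at h2
    exact h2 sml_empty
  have hanti : ClosureAntitone D := by
    refine CantorScheme.Antitone.closureAntitone ?_ fun l => (DP l).property.1
    intro l a
    cases a
    · exact (h0 _ _ _).2.2.1
    exact (h1 _ _ _).2.2.1
  have hdiam : VanishingDiam D := by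
    intro x
    apply tendsto_of_tendsto_of_tendsto_of_le_of_le' tendsto_const_nhds hu
    · simp
    rw [eventually_atTop]
    refine ⟨1, fun m (hm : 1 ≤ m) => ?_⟩
    rw [Nat.one_le_iff_ne_zero] at hm
    rcases Nat.exists_eq_succ_of_ne_zero hm with ⟨n, rfl⟩
    dsimp
    cases x n
    · convert! (h0 _ _ _).2.2.2
      rw [PiNat.res_length]
    convert! (h1 _ _ _).2.2.2
    rw [PiNat.res_length]
  have hdom : ∀ {x : ℕ → Bool}, x ∈ (inducedMap D).1 := fun {x} => by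
    rw [hanti.map_of_vanishingDiam hdiam hne]
    apply mem_univ
  have hmem : ∀ (x : ℕ → Bool) n, (inducedMap D).2 ⟨x, hdom⟩ ∈ D (res x n) := fun x n =>
    map_mem ⟨x, hdom⟩ n
  have key : ∀ (h : Z → ℕ → Bool), (∀ l, ∀ z ∈ D (false :: l), ∀ z' ∈ D (true :: l), h z ≠ h z') →
      Function.Injective fun x => h ((inducedMap D).2 ⟨x, hdom⟩) := by
    intro h hh x y hxy
    beta_reduce at hxy
    refine res_injective (funext fun n => ?_)
    induction n with
    | zero => rfl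
    | succ n ih =>
      rw [res_succ, res_succ, ih]
      congr 1
      have hx := hmem x (n + 1)
      have hy := hmem y (n + 1)
      rw [res_succ] at hx hy
      rw [ih] at hx
      generalize x n = b at *
      generalize y n = b' at *
      cases b <;> cases b'
      · rfl
      · exact absurd hxy (hh _ _ hx _ hy)
      · exact absurd hxy.symm (hh _ _ hy _ hx)
      · rfl
  refine ⟨fun x => (inducedMap D).2 ⟨x, hdom⟩, fun x => map_mem ⟨_, hdom⟩ 0, ?_, key f ?_, key g ?_⟩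
  · apply hdiam.map_continuous.comp
    fun_prop
  · exact fun l z hz z' hz' => hfd _ _ _ z hz z' hz'
  · exact fun l z hz z' hz' => hgd _ _ _ z hz z' hz'

end

theorem exists_cantor_polish {Y : Type*} [TopologicalSpace Y] [PolishSpace Y]
    {f g : Y → ℕ → Bool} (hf : Continuous f) (hg : Continuous g) {C : Set Y}
    (hC : IsClosed C) (hb : ¬ Sml f g C) : ∃ κ : (ℕ → Bool) → Y, (∀ x, κ x ∈ C) ∧
    Continuous κ ∧ (Function.Injective fun x => f (κ x)) ∧ Function.Injective fun x => g (κ x) := by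
  let := TopologicalSpace.upgradeIsCompletelyMetrizable Y
  exact exists_cantor_two hf hg hC hb

/-- Borel sets. -/
theorem exists_cantor_borel {Y : Type*} [TopologicalSpace Y] [PolishSpace Y] [MeasurableSpace Y]
    [BorelSpace Y] {f g : Y → ℕ → Bool} (hf : Continuous f) (hg : Continuous g) {W : Set Y}
    (hW : MeasurableSet W) (hb : ¬ Sml f g W) : ∃ κ : (ℕ → Bool) → Y, (∀ x, κ x ∈ W) ∧
    Continuous κ ∧ (Function.Injective fun x => f (κ x)) ∧ Function.Injective fun x => g (κ x) := by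
  obtain ⟨t', ht', hP, hcl, -⟩ := hW.isClopenable
  obtain ⟨κ, h1, h2, h3, h4⟩ := @exists_cantor_polish Y t' hP f g (continuous_le_dom ht' hf)
    (continuous_le_dom ht' hg) W hcl hb
  exact ⟨κ, h1, continuous_le_rng ht' h2, h3, h4⟩

end Pool.Agent.N620.WU
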