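import Pool.Agent.N620.WU.Low
import Pool.Agent.N620.WU.Tl

set_option autoImplicit false

/-! Requirements, selections, and the killing of one decoder. -/

namespace Pool.Agent.N620.WU

open Pool.Agent.Helper227 Pool.Agent.N620.WP
open Encodable MeasureTheory
open Pool.Agent.Y588.PD (Fam RLe exists_fam)

/-- Requirements. -/
structure Rq where
  Z : ℕ → Set Sq
  μ : ℕ → ℕ
  meas : ∀ i, MeasurableSet (Z i)
  det : ∀ i, ∀ y ∈ Z i, ∀ y', Ag (μ i) y y' → y' ∈ Z i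

/-- The requirement is met at `y`. -/
def Rq.Mt (R : Rq) (y : Sq) : Prop := ∃ i, y ∈ R.Z i

/-- The requirement is dense above the condition `(n, x)`. -/
def Rq.Dz (R : Rq) (n : ℕ) (x : Sq) : Prop :=
  ∀ m ≥ n, ∀ y, Ag n x y → ∃ i, ∃ y' ∈ R.Z i, Ag m y y'

theorem ag_symm {n : ℕ} {x y : Sq} (h : Ag n x y) : Ag n y x := fun i hi => (h i hi).symm

theorem ag_mono {n m : ℕ} {x y : Sq} (h : Ag m x y) (hn : n ≤ m) : Ag n x y :=
  fun i hi => h i (by omega)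

theorem Rq.Dz.mono {R : Rq} {n n' : ℕ} {x x' : Sq} (h : R.Dz n x) (hn : n ≤ n') (hx : Ag n x x') :
    R.Dz n' x' := fun m hm y hy => h m (hn.trans hm) y (hx.trans hn hy)

/-- The trivial requirement. -/
def Rq.triv : Rq where
  Z _ := Set.univ
  μ _ := 0
  meas _ := MeasurableSet.univ
  det _ _ _ _ _ := trivial

theorem Rq.dz_triv (n : ℕ) (x : Sq) : Rq.triv.Dz n x :=
  fun _ _ y _ => ⟨0, y, trivial, Ag.refl _ _⟩

theorem not_mem_sat {m : ℕ} {C : Set Sq} {y : Sq} : y ∈ (Sat m C)ᶜ ↔ ∀ y', Ag m y y' → y' ∉ C := by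
  simp only [Sat, Set.mem_compl_iff, Set.mem_ofPred_eq, not_exists, not_and]

/-- To belong to an open set. -/
def Rq.op (O : Set Sq) (hO : IsOpen O) : Rq where
  Z i := (Sat i Oᶜ)ᶜ
  μ i := i
  meas i := (isClosed_sat hO.isClosed_compl i).measurableSet.compl
  det i y hy y' h := by
    rw [not_mem_sat] at hy ⊢
    exact fun y'' h' => hy y'' (h.trans le_rfl h')

theorem Rq.mt_op {O : Set Sq} {hO : IsOpen O} {y : Sq} (h : (Rq.op O hO).Mt y) : y ∈ O := by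
  obtain ⟨i, hi⟩ := h
  have h1 : y ∈ (Sat i Oᶜ)ᶜ := hi
  rw [not_mem_sat] at h1
  exact Set.notMem_compl_iff.1 (h1 y (Ag.refl _ _))

theorem Rq.dz_op {O : Set Sq} (hO : IsOpen O) {n : ℕ} {x : Sq} (h : Dns O n x) :
    (Rq.op O hO).Dz n x := by
  intro m hm y hy
  obtain ⟨m', hm', y', h1, h2⟩ := h.dd hO m hm y hy
  refine ⟨m', y', ?_, h1⟩
  change y' ∈ (Sat m' Oᶜ)ᶜ
  rw [not_mem_sat]
  exact fun y'' h3 => Set.notMem_compl_iff.2 (h2 y'' h3)

/-- To miss one of the open sets. -/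
def Rq.cl (O : ℕ → Set Sq) (hO : ∀ k, IsOpen (O k)) : Rq where
  Z i := (Sat i.unpair.1 (O i.unpair.2))ᶜ
  μ i := i.unpair.1
  meas i := (isOpen_sat (hO _) _).measurableSet.compl
  det i y hy y' h := by
    rw [not_mem_sat] at hy ⊢
    exact fun y'' h' => hy y'' (h.trans le_rfl h')

theorem Rq.mt_cl {O : ℕ → Set Sq} {hO : ∀ k, IsOpen (O k)} {y : Sq} (h : (Rq.cl O hO).Mt y) :
    ∃ k, y ∉ O k := by
  obtain ⟨i, hi⟩ := h
  have h1 : y ∈ (Sat i.unpair.1 (O i.unpair.2))ᶜ := hi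
  rw [not_mem_sat] at h1
  exact ⟨_, h1 y (Ag.refl _ _)⟩

theorem Rq.dz_cl {O : ℕ → Set Sq} (hO : ∀ k, IsOpen (O k)) {n : ℕ} {x : Sq}
    (h : ∀ m ≥ n, ∀ y, Ag n x y → y ∉ WW O m) : (Rq.cl O hO).Dz n x := by
  intro m hm y hy
  have h1 := h m hm y hy
  simp only [WW, Dns, Set.mem_ofPred_eq] at h1
  push Not at h1
  obtain ⟨k, m', hm', y', h2, h3⟩ := h1
  refine ⟨Nat.pair m' k, y', ?_, h2⟩
  change y' ∈ (Sat (Nat.pair m' k).unpair.1 (O (Nat.pair m' k).unpair.2))ᶜ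
  rw [not_mem_sat, Nat.unpair_pair]
  exact h3

theorem WW.mono {O : ℕ → Set Sq} {m m' : ℕ} {x x' : Sq} (h : x ∈ WW O m) (hm : m ≤ m')
    (hx : Ag m x x') : x' ∈ WW O m' :=
  fun k m'' hm'' y hy => h k m'' (hm.trans hm'') y (hx.trans hm hy)

/-- The sequence of the values of the functions. -/
def Xx (H : ℕ → (ℕ → Bool) → ℕ → Bool) (c : ℕ → Bool) : Sq := fun i => H i c

theorem continuous_Xx {H : ℕ → (ℕ → Bool) → ℕ → Bool} (hH : ∀ i, Continuous (H i)) :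
    Continuous (Xx H) := continuous_pi hH

theorem polish_prod : PolishSpace ((ℕ → Bool) × Sq) := by
  have h1 := polish
  have h2 : PolishSpace Sq := by
    have : TopologicalSpace.IsCompletelyMetrizableSpace (ℕ → Bool) :=
      TopologicalSpace.IsCompletelyMetrizableSpace.pi_countable
    have : TopologicalSpace.IsCompletelyMetrizableSpace Sq :=
      TopologicalSpace.IsCompletelyMetrizableSpace.pi_countable
    infer_instance
  infer_instance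

/-- The extensions with the property `W`. -/
def Ex (Q : Set (ℕ → Bool)) (n : ℕ) (H : ℕ → (ℕ → Bool) → ℕ → Bool) (W : Set Sq) :
    Set ((ℕ → Bool) × Sq) := {p | p.1 ∈ Q ∧ p.2 ∈ W ∧ Ag n (Xx H p.1) p.2}

theorem measurableSet_Ex {Q : Set (ℕ → Bool)} (hQ : IsClosed Q) (n : ℕ)
    {H : ℕ → (ℕ → Bool) → ℕ → Bool} (hH : ∀ i, Continuous (H i)) {W : Set Sq}
    (hW : MeasurableSet W) : MeasurableSet (Ex Q n H W) := by
  have h1 : Ex Q n H W = Prod.fst ⁻¹' Q ∩ (Prod.snd ⁻¹' W ∩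
      ⋂ (i : ℕ) (_ : i < n), {p : (ℕ → Bool) × Sq | p.2 i = H i p.1}) := by
    ext p
    simp only [Ex, Ag, Xx, Set.mem_ofPred_eq, Set.mem_inter_iff, Set.mem_preimage, Set.mem_iInter]
  rw [h1]
  refine (measurable_fst hQ.measurableSet).inter ((measurable_snd hW).inter ?_)
  refine MeasurableSet.iInter fun i => MeasurableSet.iInter fun _ => ?_
  exact (isClosed_eq ((continuous_apply i).comp continuous_snd)
    ((hH i).comp continuous_fst)).measurableSet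

/-- Selection of extensions. -/
theorem exists_sel {Q : Set (ℕ → Bool)} (hQ : IsClosed Q) {n : ℕ}
    {H : ℕ → (ℕ → Bool) → ℕ → Bool} (hH : ∀ i, Continuous (H i)) {W : Set Sq}
    (hW : MeasurableSet W) {g : (ℕ → Bool) × Sq → ℕ → Bool} (hg : Continuous g)
    (hb : ¬ Sml Prod.fst g (Ex Q n H W)) : ∃ (Q' : Set (ℕ → Bool))
      (H' : ℕ → (ℕ → Bool) → ℕ → Bool), IsClosed Q' ∧ ¬ Q'.Countable ∧ Q' ⊆ Q ∧
      (∀ i, Continuous (H' i)) ∧ (∀ c ∈ Q', Ag n (Xx H c) (Xx H' c)) ∧ (∀ c ∈ Q', Xx H' c ∈ W) ∧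
      Set.InjOn (fun c => g (c, Xx H' c)) Q' := by
  have := polish_prod
  obtain ⟨κ, h1, h2, h3, h4⟩ := exists_cantor_borel continuous_fst hg (measurableSet_Ex hQ n hH hW) hb
  have hφ : Continuous fun x => (κ x).1 := continuous_fst.comp h2
  obtain ⟨ψ, h5, h6⟩ := exists_left_inverse hφ h3
  refine ⟨Set.range fun x => (κ x).1, fun i c => (κ (ψ c)).2 i, (isCompact_range hφ).isClosed, ?_,
    ?_, fun i => ?_, ?_, ?_, ?_⟩
  · intro hc
    have h7 := hc.preimage_of_injOn (f := fun x => (κ x).1) h3.injOn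
    refine not_countable_univ (h7.mono fun x _ => ?_)
    exact Set.mem_range_self (f := fun x => (κ x).1) x
  · rintro c ⟨x, rfl⟩
    exact (h1 x).1
  · exact (continuous_apply i).comp (continuous_snd.comp (h2.comp h5))
  · rintro c ⟨x, rfl⟩
    intro i hi
    simp only [Xx, h6]
    exact (h1 x).2.2 i hi
  · rintro c ⟨x, rfl⟩
    have h7 : Xx (fun i c => (κ (ψ c)).2 i) (κ x).1 = (κ x).2 := by
      funext i
      simp only [Xx, h6]
    rw [h7]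
    exact (h1 x).2.1
  · rintro c ⟨x, rfl⟩ c' ⟨x', rfl⟩ hcc
    have h7 : ∀ x, Xx (fun i c => (κ (ψ c)).2 i) (κ x).1 = (κ x).2 := by
      intro x
      funext i
      simp only [Xx, h6]
    beta_reduce at hcc
    rw [h7, h7] at hcc
    have h8 : x = x' := h4 hcc
    rw [h8]

theorem not_sml_fst {Q : Set (ℕ → Bool)} (hQ : ¬ Q.Countable) {n : ℕ}
    {H : ℕ → (ℕ → Bool) → ℕ → Bool} {W : ℕ → Set Sq}
    (hcov : ∀ c ∈ Q, ∃ i, ∃ y ∈ W i, Ag n (Xx H c) y) :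
    ∃ i, ¬ Sml (Prod.fst : (ℕ → Bool) × Sq → ℕ → Bool) Prod.fst (Ex Q n H (W i)) := by
  by_contra hcon
  push Not at hcon
  obtain ⟨A, B, hA, hB, h1⟩ := Sml.iUnion hcon
  refine hQ ((hA.union hB).mono fun c hc => ?_)
  obtain ⟨i, y, hy, hcy⟩ := hcov c hc
  exact h1 (c, y) (Set.mem_iUnion.2 ⟨i, hc, hy, hcy⟩)

/-- Uniform extensions. -/
theorem exists_unif {Q : Set (ℕ → Bool)} (hQ : IsClosed Q) (hQ' : ¬ Q.Countable) {n : ℕ}
    {H : ℕ → (ℕ → Bool) → ℕ → Bool} (hH : ∀ i, Continuous (H i)) {W : ℕ → Set Sq}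
    (hW : ∀ i, MeasurableSet (W i)) (hcov : ∀ c ∈ Q, ∃ i, ∃ y ∈ W i, Ag n (Xx H c) y) :
    ∃ (i : ℕ) (Q' : Set (ℕ → Bool))
      (H' : ℕ → (ℕ → Bool) → ℕ → Bool), IsClosed Q' ∧ ¬ Q'.Countable ∧ Q' ⊆ Q ∧
      (∀ i, Continuous (H' i)) ∧ (∀ c ∈ Q', Ag n (Xx H c) (Xx H' c)) ∧
      ∀ c ∈ Q', Xx H' c ∈ W i := by
  obtain ⟨i, hi⟩ := not_sml_fst hQ' hcov
  obtain ⟨Q', H', h1, h2, h3, h4, h5, h6, -⟩ := exists_sel hQ hH (hW i) continuous_fst hi
  exact ⟨i, Q', H', h1, h2, h3, h4, h5, h6⟩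

end Pool.Agent.N620.WU
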